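import Pool.Agent.H71R2.Frob.Derived

/-!
Finitely presented groups with locally free derived subgroup and abelianisation of torsion-free
rank at most one are residually finite; finitely generated ones are locally approximable by finite
groups.
-/

set_option autoImplicit false

namespace Pool.Agent.Results.MP_dfe55f_al.RankOne

open Pool.Agent.H71R2

theorem result :
    (∀ (G : Type) [Group G], Group.IsFinitelyPresented G →
      (∀ H : Subgroup G, H ≤ commutator G → H.FG → IsFreeGroup H) →
      (∃ t : G, (commutator G ⊔ Subgroup.zpowers t).FiniteIndex) →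
      ∀ g : G, g ≠ 1 → ∃ N : Subgroup G, N.Normal ∧ N.index ≠ 0 ∧ g ∉ N) ∧
    (∀ (G : Type) [Group G], Group.FG G →
      (∀ H : Subgroup G, H ≤ commutator G → H.FG → IsFreeGroup H) →
      (∃ t : G, (commutator G ⊔ Subgroup.zpowers t).FiniteIndex) →
      ∀ S : Finset G, ∃ (n : ℕ) (f : G → Equiv.Perm (Fin n)),
        Set.InjOn f (S : Set G) ∧ ∀ x ∈ S, ∀ y ∈ S, f (x * y) = f x * f y) := by
  refine ⟨?_, ?_⟩
  · rintro G _ hG hfree ⟨t, ht⟩ g hg
    have hfg := Frob.fg_of_fp G
    have h1 : Group.ResiduallyFinite G := Lef.rf_of_lef_of_fp (Frob.lef_of_derived hfree t ht)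
    obtain ⟨N, hN⟩ : ∃ N : FiniteIndexNormalSubgroup G, g ∉ N.toSubgroup := by
      by_contra hcon
      push Not at hcon
      have h2 : g ∈ ⨅ H : FiniteIndexNormalSubgroup G, H.toSubgroup :=
        Subgroup.mem_iInf.2 hcon
      rw [h1.iInf_eq_bot] at h2
      exact hg (Subgroup.mem_bot.1 h2)
    exact ⟨N.toSubgroup, N.isNormal', N.isFiniteIndex'.index_ne_zero, hN⟩
  · rintro G _ hG hfree ⟨t, ht⟩
    exact Frob.lef_of_derived hfree t ht

end Pool.Agent.Results.MP_dfe55f_al.RankOne
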